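import Pool.Agent.N718.GC.Stm

/-!
# GC/LOCP: density of forms with two almost common zeros modulo l
-/

set_option autoImplicit false

namespace Pool.Agent.N596.GC

open Finset Pool.Agent.N718.DC Pool.Agent.N718.GC

lemma fib {G H : Type} [AddGroup G] [Fintype G] [AddGroup H] [Fintype H] [DecidableEq H]
    (f : G →+ H) (hf : Function.Surjective f) (S : Finset H) :
    Fintype.card H * (univ.filter (fun g => f g ∈ S)).card = S.card * Fintype.card G := by
  have h0 : ∀ y : H, (univ.filter (fun g => f g = y)).card =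
      (univ.filter (fun g => f g = 0)).card := fun y =>
    AddMonoidHom.card_fiber_eq_of_mem_range f (hf y) (hf 0)
  have h1 : (univ.filter (fun g => f g ∈ S)).card =
      S.card * (univ.filter (fun g => f g = 0)).card := by
    rw [Finset.card_eq_sum_card_fiberwise (f := f) (t := S) (fun x hx => by simpa using hx)]
    rw [← smul_eq_mul, ← Finset.sum_const]
    refine Finset.sum_congr rfl fun y hy => ?_
    rw [← h0 y]
    congr 1
    ext g
    simp only [mem_filter, mem_univ, true_and]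
    constructor
    · exact fun h => h.2
    · exact fun h => ⟨by rw [h]; exact hy, h⟩
  have h2 : Fintype.card G = Fintype.card H * (univ.filter (fun g => f g = 0)).card := by
    have h3 : (univ : Finset G).card = _ :=
      Finset.card_eq_sum_card_fiberwise (f := f) (t := univ) (fun x _ => by simp)
    rw [Finset.card_univ] at h3
    rw [h3, ← smul_eq_mul, ← Finset.card_univ, ← Finset.sum_const]
    exact Finset.sum_congr rfl fun y _ => h0 y
  rw [h1, h2]; ring

/-- evaluation at two points -/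
def ev2 {R : Type} [CommRing R] (e : ℕ) (t t' : R) : (Fin (e + 2) → R) →+ R × R where
  toFun c := (fm c 1 t, fm c 1 t')
  map_zero' := by simp [fm]
  map_add' c d := by
    simp only [fm, Prod.mk_add_mk, ← Finset.sum_add_distrib, Pi.add_apply]
    congr 1 <;> exact Finset.sum_congr rfl fun j _ => by ring

lemma ev2_surj {R : Type} [CommRing R] (e : ℕ) (t t' u : R) (hu : (t' - t) * u = 1) :
    Function.Surjective (ev2 e t t') := by
  rintro ⟨a, b⟩
  let c1 : R := (b - a) * u
  refine ⟨fun j => if (j : ℕ) = 0 then a - c1 * t else if (j : ℕ) = 1 then c1 else 0, ?_⟩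
  have key : ∀ s : R, fm (fun j : Fin (e + 2) => if (j : ℕ) = 0 then a - c1 * t else
      if (j : ℕ) = 1 then c1 else 0) 1 s = a - c1 * t + c1 * s := by
    intro s
    unfold fm
    rw [Fin.sum_univ_succ, Fin.sum_univ_succ]
    rw [Finset.sum_eq_zero]
    · simp
    · intro j _
      simp
  show (fm _ 1 t, fm _ 1 t') = (a, b)
  rw [key, key]
  refine Prod.ext ?_ ?_
  · show a - c1 * t + c1 * t = a
    ring
  · show a - c1 * t + c1 * t' = b
    have : a - c1 * t + c1 * t' = a + (b - a) * ((t' - t) * u) := by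
      show a - (b - a) * u * t + (b - a) * u * t' = _
      ring
    rw [this, hu]; ring

section

variable {m : ℕ} (e : Fin m → ℕ) (q : ℕ) [NeZero q]

/-- joint counts -/
lemma joint (S T : Fin m → Finset (ZMod q)) (t t' u : ZMod q) (hu : (t' - t) * u = 1) :
    ((univ.filter (fun g : (k : Fin m) → Fin (e k + 2) → ZMod q =>
      ∀ k, fm (g k) 1 t ∈ S k ∧ fm (g k) 1 t' ∈ T k)).card : ℝ) =
    (∏ k, (((S k).card : ℝ) / q)) * (∏ k, (((T k).card : ℝ) / q)) * (q : ℝ) ^ ncI e := by
  have hq : (q : ℝ) ≠ 0 := by exact_mod_cast NeZero.ne q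
  have h1 : univ.filter (fun g : (k : Fin m) → Fin (e k + 2) → ZMod q =>
      ∀ k, fm (g k) 1 t ∈ S k ∧ fm (g k) 1 t' ∈ T k) =
      Fintype.piFinset (fun k => univ.filter (fun x : Fin (e k + 2) → ZMod q =>
        ev2 (e k) t t' x ∈ S k ×ˢ T k)) := by
    ext g
    simp only [mem_filter, mem_univ, true_and, Fintype.mem_piFinset, mem_product]
    rfl
  rw [h1, Fintype.card_piFinset]
  push_cast
  have h2 : ∀ k, ((univ.filter (fun x : Fin (e k + 2) → ZMod q =>
      ev2 (e k) t t' x ∈ S k ×ˢ T k)).card : ℝ) =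
      ((S k).card / q : ℝ) * ((T k).card / q) * (q : ℝ) ^ (e k + 2) := by
    intro k
    have h3 := fib (ev2 (e k) t t') (ev2_surj (e k) t t' u hu) (S k ×ˢ T k)
    rw [Fintype.card_prod, ZMod.card, card_product, Fintype.card_fun, ZMod.card,
      Fintype.card_fin] at h3
    have h4 : ((q : ℝ) * q) * ((univ.filter (fun x : Fin (e k + 2) → ZMod q =>
      ev2 (e k) t t' x ∈ S k ×ˢ T k)).card : ℝ) =
      ((S k).card * (T k).card) * (q : ℝ) ^ (e k + 2) := by exact_mod_cast h3
    field_simp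
    rw [← h4]; ring
  rw [Finset.prod_congr rfl fun k _ => h2 k, Finset.prod_mul_distrib, Finset.prod_mul_distrib,
    Finset.prod_pow_eq_pow_sum]
  rfl

end

/-- Bonferroni -/
lemma bonf {Ω : Type} [Fintype Ω] (l : ℕ) (E : ℕ → Ω → Prop) [∀ t, DecidablePred (E t)]
    [DecidablePred fun g => ∀ t < l, ¬ E t g] (p : ℝ)
    (h1 : ∀ t < l, ((univ.filter (E t)).card : ℝ) = p * Fintype.card Ω)
    (h2 : ∀ t < l, ∀ t' < l, t ≠ t' →
      ((univ.filter (fun g => E t g ∧ E t' g)).card : ℝ) = p ^ 2 * Fintype.card Ω) :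
    ((univ.filter (fun g => ∀ t < l, ¬ E t g)).card : ℝ) ≤
      (1 - l * p + l * (l - 1) / 2 * p ^ 2) * Fintype.card Ω := by
  -- the number of events
  set X : Ω → ℝ := fun g => ∑ t ∈ range l, if E t g then (1 : ℝ) else 0 with hX
  have hXn : ∀ g, ∃ n : ℕ, X g = n := fun g => by
    refine ⟨((range l).filter (fun t => E t g)).card, ?_⟩
    rw [hX]
    simp
  have hpt : ∀ g, (if ∀ t < l, ¬ E t g then (1 : ℝ) else 0) ≤ 1 - 3 / 2 * X g + 1 / 2 * X g ^ 2 := by
    intro g
    split_ifs with h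
    · have : X g = 0 := by
        rw [hX]
        exact Finset.sum_eq_zero fun t ht => if_neg (h t (mem_range.1 ht))
      rw [this]; norm_num
    · obtain ⟨n, hn⟩ := hXn g
      rw [hn]
      rcases Nat.lt_or_ge n 2 with h3 | h3
      · interval_cases n <;> norm_num
      · have h4 : (2 : ℝ) ≤ n := by exact_mod_cast h3
        nlinarith
  have hS1 : ∑ g, X g = l * (p * Fintype.card Ω) := by
    rw [hX, Finset.sum_comm]
    have : ∀ t ∈ range l, ∑ g, (if E t g then (1 : ℝ) else 0) = p * Fintype.card Ω := by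
      intro t ht
      rw [← h1 t (mem_range.1 ht)]
      simp
    rw [Finset.sum_congr rfl this]
    simp
  have hS2 : ∑ g, X g ^ 2 = l * (p * Fintype.card Ω) + l * (l - 1) * (p ^ 2 * Fintype.card Ω) := by
    have hsq : ∀ g, X g ^ 2 = ∑ t ∈ range l, ∑ t' ∈ range l,
        if E t g ∧ E t' g then (1 : ℝ) else 0 := by
      intro g
      rw [hX, sq, Finset.sum_mul_sum]
      refine Finset.sum_congr rfl fun t _ => Finset.sum_congr rfl fun t' _ => ?_
      by_cases a : E t g <;> by_cases b : E t' g <;> simp [a, b]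
    rw [Finset.sum_congr rfl fun g _ => hsq g, Finset.sum_comm]
    have hin : ∀ t ∈ range l, ∑ g, ∑ t' ∈ range l, (if E t g ∧ E t' g then (1 : ℝ) else 0) =
        p * Fintype.card Ω + (l - 1) * (p ^ 2 * Fintype.card Ω) := by
      intro t ht
      rw [Finset.sum_comm, ← Finset.add_sum_erase _ _ ht]
      congr 1
      · rw [← h1 t (mem_range.1 ht)]
        simp
      · have : ∀ t' ∈ (range l).erase t, ∑ g, (if E t g ∧ E t' g then (1 : ℝ) else 0) =
            p ^ 2 * Fintype.card Ω := by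
          intro t' ht'
          obtain ⟨hne, ht'⟩ := mem_erase.1 ht'
          rw [← h2 t (mem_range.1 ht) t' (mem_range.1 ht') (Ne.symm hne)]
          simp
        rw [Finset.sum_congr rfl this, Finset.sum_const, card_erase_of_mem ht, card_range,
          nsmul_eq_mul]
        have hl : 1 ≤ l := by have := mem_range.1 ht; omega
        rw [Nat.cast_sub hl, Nat.cast_one]
    rw [Finset.sum_congr rfl hin, Finset.sum_const, card_range, nsmul_eq_mul]
    ring
  have hcard : ((univ.filter (fun g => ∀ t < l, ¬ E t g)).card : ℝ) =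
      ∑ g, (if ∀ t < l, ¬ E t g then (1 : ℝ) else 0) := by
    simp
  rw [hcard]
  calc ∑ g, (if ∀ t < l, ¬ E t g then (1 : ℝ) else 0)
      ≤ ∑ g, (1 - 3 / 2 * X g + 1 / 2 * X g ^ 2) := Finset.sum_le_sum fun g _ => hpt g
    _ = Fintype.card Ω - 3 / 2 * ∑ g, X g + 1 / 2 * ∑ g, X g ^ 2 := by
        rw [Finset.sum_add_distrib, Finset.sum_sub_distrib, ← Finset.mul_sum, ← Finset.mul_sum]
        simp
    _ = _ := by rw [hS1, hS2]; ring

/-- sizes of the residue sets -/
lemma sizes (l : ℕ) (hl : l.Prime) [NeZero (l ^ 2)] :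
    (univ.filter (fun x : ZMod (l ^ 2) =>
      (ZMod.castHom (Dvd.intro_left (l ^ 1) (by ring) : l ∣ l ^ 2) (ZMod l)) x = 0)).card = l := by
  have : NeZero l := ⟨hl.ne_zero⟩
  have h := fib ((ZMod.castHom (Dvd.intro_left (l ^ 1) (by ring) : l ∣ l ^ 2)
    (ZMod l)).toAddMonoidHom) (ZMod.castHom_surjective (Dvd.intro_left (l ^ 1) (by ring) : l ∣ l ^ 2)) ({0} : Finset (ZMod l))
  rw [ZMod.card, ZMod.card, card_singleton, one_mul] at h
  have h2 : univ.filter (fun x : ZMod (l ^ 2) => (ZMod.castHom (Dvd.intro_left (l ^ 1) (by ring) : l ∣ l ^ 2)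
    (ZMod l)).toAddMonoidHom x ∈ ({0} : Finset (ZMod l))) = univ.filter (fun x : ZMod (l ^ 2) =>
      (ZMod.castHom (Dvd.intro_left (l ^ 1) (by ring) : l ∣ l ^ 2) (ZMod l)) x = 0) := by
    ext x
    rw [mem_filter, mem_filter, mem_singleton]
    rfl
  rw [h2] at h
  have : l * (univ.filter (fun x : ZMod (l ^ 2) =>
      (ZMod.castHom (Dvd.intro_left (l ^ 1) (by ring) : l ∣ l ^ 2) (ZMod l)) x = 0)).card = l * l := by
    rw [h]; ring
  exact Nat.eq_of_mul_eq_mul_left hl.pos this

theorem locp_ : S_LOCP := by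
  classical
  intro m e i i' hii
  refine ⟨2 * m + 1, fun l hl hlm => ?_⟩
  have hl0 : 0 < l := hl.pos
  have : NeZero (l ^ 2) := ⟨by positivity⟩
  have : NeZero l := ⟨hl.ne_zero⟩
  have : Fact l.Prime := ⟨hl⟩
  set ψ := ZMod.castHom (Dvd.intro_left (l ^ 1) (by ring) : l ∣ l ^ 2) (ZMod l) with hψ
  set S : Fin m → Finset (ZMod (l ^ 2)) := fun k =>
    if k = i ∨ k = i' then univ.filter (fun x => ψ x = 0 ∧ x ≠ 0) else
      univ.filter (fun x => ψ x ≠ 0) with hS
  -- sizes
  have hz : (univ.filter (fun x : ZMod (l ^ 2) => ψ x = 0)).card = l := sizes l hl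
  have hS1 : (univ.filter (fun x : ZMod (l ^ 2) => ψ x = 0 ∧ x ≠ 0)).card + 1 = l := by
    have h1 : univ.filter (fun x : ZMod (l ^ 2) => ψ x = 0 ∧ x ≠ 0) =
        (univ.filter (fun x : ZMod (l ^ 2) => ψ x = 0)).erase 0 := by
      ext x; simp [and_comm]
    rw [h1, card_erase_of_mem (by simp), hz]
    have := hl.two_le
    omega
  have hS0 : (univ.filter (fun x : ZMod (l ^ 2) => ψ x ≠ 0)).card + l = l ^ 2 := by
    have h1 := Finset.card_filter_add_card_filter_not (s := (univ : Finset (ZMod (l ^ 2))))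
      (fun x => ψ x = 0)
    rw [hz, card_univ, ZMod.card] at h1
    have h2 : (univ.filter (fun x : ZMod (l ^ 2) => ψ x ≠ 0)).card =
        (univ.filter (fun x : ZMod (l ^ 2) => ¬ ψ x = 0)).card := rfl
    rw [h2]
    omega
  have hlR : (0 : ℝ) < l := by exact_mod_cast hl0
  have hprod : ∏ k, (((S k).card : ℝ) / ((l ^ 2 : ℕ) : ℝ)) =
      (1 / (l : ℝ)) ^ 2 * (1 - 1 / (l : ℝ)) ^ m := by
    have h1 : ∀ k, (((S k).card : ℝ) / ((l ^ 2 : ℕ) : ℝ)) =
        (if k = i then 1 / (l : ℝ) else 1) * (if k = i' then 1 / (l : ℝ) else 1) *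
          (1 - 1 / (l : ℝ)) := by
      intro k
      have e1 : (((univ.filter (fun x : ZMod (l ^ 2) => ψ x = 0 ∧ x ≠ 0)).card : ℕ) : ℝ) =
          l - 1 := by
        have : (((univ.filter (fun x : ZMod (l ^ 2) => ψ x = 0 ∧ x ≠ 0)).card + 1 : ℕ) : ℝ) = l := by
          rw [hS1]
        push_cast at this
        linarith
      have e0 : (((univ.filter (fun x : ZMod (l ^ 2) => ψ x ≠ 0)).card : ℕ) : ℝ) =
          (l : ℝ) ^ 2 - l := by
        have : (((univ.filter (fun x : ZMod (l ^ 2) => ψ x ≠ 0)).card + l : ℕ) : ℝ) =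
          ((l ^ 2 : ℕ) : ℝ) := by rw [hS0]
        push_cast at this
        linarith
      by_cases k1 : k = i
      · have k2 : k ≠ i' := by rw [k1]; exact hii
        simp only [hS, k1, true_or, if_true, e1]
        rw [if_neg (by exact hii)]
        push_cast
        field_simp
      · by_cases k2 : k = i'
        · simp only [hS, k2, or_true, if_true, e1]
          rw [if_neg (Ne.symm hii)]
          push_cast
          field_simp
        · have hk : ¬ (k = i ∨ k = i') := by tauto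
          have hSk : S k = univ.filter (fun x : ZMod (l ^ 2) => ψ x ≠ 0) := by
            rw [hS]; exact if_neg hk
          rw [hSk, e0, if_neg k1, if_neg k2]
          push_cast
          field_simp
    rw [Finset.prod_congr rfl fun k _ => h1 k, Finset.prod_mul_distrib, Finset.prod_mul_distrib]
    rw [Finset.prod_ite_eq', Finset.prod_ite_eq', if_pos (mem_univ _), if_pos (mem_univ _),
      Finset.prod_const, card_univ, Fintype.card_fin]
    ring
  -- units
  have hunit : ∀ t < l, ∀ t' < l, t ≠ t' → ∃ u : ZMod (l ^ 2),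
      ((t' : ZMod (l ^ 2)) - (t : ZMod (l ^ 2))) * u = 1 := by
    intro t ht t' ht' hne
    have h1 : IsCoprime ((t' : ℤ) - t) ((l : ℤ) ^ 2) := by
      refine IsCoprime.pow_right ?_
      rw [isCoprime_comm, Prime.coprime_iff_not_dvd (Nat.prime_iff_prime_int.1 hl)]
      intro hd
      have := Int.eq_zero_of_abs_lt_dvd hd (by rw [abs_lt]; constructor <;> omega)
      omega
    obtain ⟨a, b, hab⟩ := h1
    refine ⟨(a : ZMod (l ^ 2)), ?_⟩
    have h2 := congrArg (Int.cast : ℤ → ZMod (l ^ 2)) hab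
    push_cast at h2
    have h3 : ((l : ZMod (l ^ 2))) ^ 2 = 0 := by
      have := ZMod.natCast_self (l ^ 2)
      push_cast at this
      exact this
    rw [h3, mul_zero, add_zero] at h2
    rw [mul_comm]; exact h2
  set E : ℕ → ((k : Fin m) → Fin (e k + 2) → ZMod (l ^ 2)) → Prop := fun t g =>
    ∀ k, fm (g k) 1 (t : ZMod (l ^ 2)) ∈ S k with hE
  set p : ℝ := (1 / (l : ℝ)) ^ 2 * (1 - 1 / (l : ℝ)) ^ m with hp
  have hΩ : ((Fintype.card ((k : Fin m) → Fin (e k + 2) → ZMod (l ^ 2)) : ℕ) : ℝ) =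
      (((l ^ 2 : ℕ) : ℝ)) ^ ncI e := by
    rw [Fintype.card_pi]
    simp only [Fintype.card_fun, ZMod.card, Fintype.card_fin]
    rw [Finset.prod_pow_eq_pow_sum]
    push_cast
    rfl
  have hc1 : ∀ t < l, ((univ.filter (E t)).card : ℝ) =
      p * Fintype.card ((k : Fin m) → Fin (e k + 2) → ZMod (l ^ 2)) := by
    intro t ht
    obtain ⟨t', ht', hne⟩ : ∃ t' < l, t ≠ t' := by
      have := hl.two_le
      by_cases h : t = 0
      · exact ⟨1, by omega, by omega⟩
      · exact ⟨0, by omega, by omega⟩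
    obtain ⟨u, hu⟩ := hunit t ht t' ht' hne
    have h1 := joint e (l ^ 2) S (fun _ => univ) (t : ZMod (l ^ 2)) (t' : ZMod (l ^ 2)) u hu
    have h2 : ∏ k : Fin m, ((((univ : Finset (ZMod (l ^ 2))).card : ℕ) : ℝ) / ((l ^ 2 : ℕ) : ℝ)) = 1 := by
      refine Finset.prod_eq_one fun k _ => ?_
      rw [card_univ, ZMod.card]
      exact div_self (by positivity)
    rw [h2, mul_one, hprod] at h1
    rw [hΩ, ← h1]
    congr 2
    ext g
    simp [hE]
  have hc2 : ∀ t < l, ∀ t' < l, t ≠ t' →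
      ((univ.filter (fun g => E t g ∧ E t' g)).card : ℝ) =
        p ^ 2 * Fintype.card ((k : Fin m) → Fin (e k + 2) → ZMod (l ^ 2)) := by
    intro t ht t' ht' hne
    obtain ⟨u, hu⟩ := hunit t ht t' ht' hne
    have h1 := joint e (l ^ 2) S S (t : ZMod (l ^ 2)) (t' : ZMod (l ^ 2)) u hu
    rw [hprod, ← sq] at h1
    rw [hΩ, ← h1]
    congr 2
    ext g
    simp only [hE, mem_filter, mem_univ, true_and]
    exact forall_and.symm
  have hb := bonf l E p hc1 hc2
  rw [hΩ] at hb
  -- transfer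
  have htr : (((Fintype.piFinset (fun k : Fin m => Fintype.piFinset (fun _ : Fin (e k + 2) =>
      Ico (0 : ℤ) ((l : ℤ) ^ 2)))).filter (fun c => ¬ Dbl c i i' l)).card : ℝ) ≤
      ((univ.filter (fun g => ∀ t < l, ¬ E t g)).card : ℝ) := by
    rw [Nat.cast_le]
    refine Finset.card_le_card_of_injOn
      (fun c k j => ((c k j : ℤ) : ZMod (l ^ 2))) ?_ ?_
    · intro c hc
      have hc' : ¬ Dbl c i i' l := (mem_filter.1 hc).2
      simp only [coe_filter, mem_univ, true_and, Set.mem_ofPred_eq]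
      intro t ht hEt
      apply hc'
      have hcast : ∀ k, fm (fun j => ((c k j : ℤ) : ZMod (l ^ 2))) 1 (t : ZMod (l ^ 2)) =
          ((fm (c k) 1 (t : ℤ) : ℤ) : ZMod (l ^ 2)) := by
        intro k
        unfold fm
        push_cast
        rfl
      have hψc : ∀ x : ℤ, ψ ((x : ℤ) : ZMod (l ^ 2)) = (x : ZMod l) := fun x => map_intCast ψ x
      have hq0 : ∀ x : ℤ, ((x : ℤ) : ZMod (l ^ 2)) = 0 ↔ (l : ℤ) ^ 2 ∣ x := fun x => by
        rw [ZMod.intCast_zmod_eq_zero_iff_dvd]; push_cast; rfl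
      have hl0' : ∀ x : ℤ, ((x : ℤ) : ZMod l) = 0 ↔ (l : ℤ) ∣ x := fun x => by
        rw [ZMod.intCast_zmod_eq_zero_iff_dvd]
      refine ⟨1, t, fun k => ?_, fun k => ?_⟩
      · have h1 := hEt k
        rw [hcast] at h1
        by_cases hk : k = i ∨ k = i'
        · simp only [hS, hk, if_true, mem_filter, mem_univ, true_and, hψc, hl0'] at h1
          simp only [hk, iff_true]
          exact h1.1
        · simp only [hS, hk, if_false, mem_filter, mem_univ, true_and, hψc] at h1
          simp only [hk, iff_false]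
          exact fun h => h1 ((hl0' _).2 h)
      · have h1 := hEt k
        rw [hcast] at h1
        by_cases hk : k = i ∨ k = i'
        · simp only [hS, hk, if_true, mem_filter, mem_univ, true_and, hψc, hl0'] at h1
          exact fun h => h1.2 ((hq0 _).2 h)
        · simp only [hS, hk, if_false, mem_filter, mem_univ, true_and, hψc] at h1
          exact fun h => h1 ((hl0' _).2 ((dvd_pow_self (l : ℤ) two_ne_zero).trans h))
    · intro c hc d hd hcd
      have hc' := Fintype.mem_piFinset.1 (mem_filter.1 hc).1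
      have hd' := Fintype.mem_piFinset.1 (mem_filter.1 hd).1
      funext k j
      have h1 := mem_Ico.1 (Fintype.mem_piFinset.1 (hc' k) j)
      have h2 := mem_Ico.1 (Fintype.mem_piFinset.1 (hd' k) j)
      have h3 : ((c k j : ℤ) : ZMod (l ^ 2)) = ((d k j : ℤ) : ZMod (l ^ 2)) :=
        congrFun (congrFun hcd k) j
      rw [ZMod.intCast_eq_intCast_iff] at h3
      have h4 : c k j % ((l ^ 2 : ℕ) : ℤ) = d k j % ((l ^ 2 : ℕ) : ℤ) := h3
      push_cast at h4
      rwa [Int.emod_eq_of_lt h1.1 h1.2, Int.emod_eq_of_lt h2.1 h2.2] at h4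
  refine htr.trans (hb.trans ?_)
  push_cast
  refine mul_le_mul_of_nonneg_right ?_ (by positivity)
  -- numerics
  have hl2 : (2 : ℝ) * m + 1 ≤ l := by exact_mod_cast hlm
  have hp1 : p ≤ (1 / (l : ℝ)) ^ 2 := by
    have h1 : 0 ≤ 1 - 1 / (l : ℝ) := by
      rw [sub_nonneg, div_le_one hlR]
      have : (1 : ℝ) ≤ l := by exact_mod_cast hl0
      exact this
    have h2 : 1 - 1 / (l : ℝ) ≤ 1 := by
      have : 0 < 1 / (l : ℝ) := by positivity
      linarith
    rw [hp]
    exact mul_le_of_le_one_right (by positivity) (pow_le_one₀ h1 h2)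
  have hp0 : 0 ≤ p := by
    have h1 : 0 ≤ 1 - 1 / (l : ℝ) := by
      rw [sub_nonneg, div_le_one hlR]
      have : (1 : ℝ) ≤ l := by exact_mod_cast hl0
      exact this
    rw [hp]; positivity
  have hp2 : (1 / (l : ℝ)) ^ 2 * (1 - m / (l : ℝ)) ≤ p := by
    rw [hp]
    refine mul_le_mul_of_nonneg_left ?_ (by positivity)
    have h1 : (-2 : ℝ) ≤ -(1 / (l : ℝ)) := by
      have : 1 / (l : ℝ) ≤ 1 := by
        rw [div_le_one hlR]
        exact_mod_cast hl0
      linarith
    have h2 := one_add_mul_le_pow h1 m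
    calc 1 - m / (l : ℝ) = 1 + m * -(1 / (l : ℝ)) := by ring
      _ ≤ _ := h2
      _ = _ := by ring
  -- set y = 1 / l
  set y : ℝ := 1 / (l : ℝ) with hy
  have hy0 : 0 < y := by positivity
  have hly : (l : ℝ) * y = 1 := by rw [hy]; field_simp
  have hmy : (m : ℝ) / l = m * y := by rw [hy]; ring
  rw [hmy] at hp2
  have h2l : 1 / (2 * (l : ℝ)) = y / 2 := by rw [hy]; field_simp
  rw [h2l]
  have hmy2 : (m : ℝ) * y + y / 2 ≤ 1 / 2 := by
    have : (2 * (m : ℝ) + 1) * y ≤ l * y := mul_le_mul_of_nonneg_right hl2 hy0.le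
    rw [hly] at this
    linarith
  -- l p ≥ y (1 - m y)
  have hA : y * (1 - m * y) ≤ l * p := by
    calc y * (1 - m * y) = (l * y) * (y * (1 - m * y)) := by rw [hly, one_mul]
      _ = l * (y ^ 2 * (1 - m * y)) := by ring
      _ ≤ l * p := mul_le_mul_of_nonneg_left hp2 hlR.le
  have hB : (l : ℝ) * (l - 1) / 2 * p ^ 2 ≤ y ^ 2 / 2 := by
    have h1 : p ^ 2 ≤ (y ^ 2) ^ 2 := pow_le_pow_left₀ hp0 hp1 2
    have h2 : (l : ℝ) * (l - 1) / 2 ≤ l * l / 2 := by nlinarith
    have h3 : (0 : ℝ) ≤ l * l / 2 := by positivity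
    calc (l : ℝ) * (l - 1) / 2 * p ^ 2 ≤ l * l / 2 * p ^ 2 :=
          mul_le_mul_of_nonneg_right h2 (by positivity)
      _ ≤ l * l / 2 * (y ^ 2) ^ 2 := mul_le_mul_of_nonneg_left h1 h3
      _ = (l * y) * (l * y) * y ^ 2 / 2 := by ring
      _ = y ^ 2 / 2 := by rw [hly]; ring
  nlinarith

end Pool.Agent.N596.GC
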